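import Mathlib

/-!
# `B(≠*, 2 ^ 2 ^ n)` is a proper subclass of `B(≠*, 2 ^ n!)`

For `h : ℕ → ℕ`, `EvDiff h` is the class of all oracles `A ⊆ ℕ` which compute a function `y < h`
that differs from every computable function at almost all places.

Proof of properness.  A condition is a triple `(σ, B, R)`: a stem `σ`, a c.e. set `B` of bad
strings, and a number `R` such that all members of `B` above `σ` can be killed by `R` guesses at
each level (the guesses depend on the level only).  The bad sets needed to make the generic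
function eventually different from a given computable function, or to force a functional `Ψ` to be
partial, are c.e.  In the remaining case, for all `σ`, `R`, `M` there is a finite list of values
`Ψ(M + j) = v_j` such that these values, together with `B`, cannot be avoided by `R` guesses per
level above `σ`: take `2 R N + 1` strings of length `N` above `σ`, the `j`-th one being constant
with value `j` (taken modulo `2 ^ k!` at level `k`), so that `R` guesses per level cannot kill them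
all; above the `j`-th string only `R * 2 ^ 2 ^ (M + j) < 2 ^ N!` guesses per level would be needed
to kill all possible values of `Ψ(M + j)`, and hence one of the values is not killed by `R`
guesses.  Such finite lists can be found effectively (the search always stops, because the failure
of smallness is a c.e. event by compactness), which produces a total computable function that
agrees infinitely often with `Ψ` on the generic.
-/

open Filter Encodable

namespace Pool.Agent.Results.MP_69a5e7_lc.ProperInclusion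

/-- The characteristic function of the set `A ⊆ ℕ`, as a (total) oracle. -/
noncomputable def chi (A : Set ℕ) : ℕ →. ℕ :=
  fun n => Part.some (open Classical in if n ∈ A then 1 else 0)

/-- The class `B(≠*, h)`: the oracles `A` which compute (in the sense of Mathlib's `ComputableIn`,
that is, Turing computability relative to the characteristic function of `A`) a total function `y`
with `y n < h n` for all `n`, such that for every computable `x : ℕ → ℕ` we have `x n ≠ y n` for all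
but finitely many `n`. -/
def EvDiff (h : ℕ → ℕ) : Set (Set ℕ) :=
  {A | ∃ y : ℕ → ℕ, ComputableIn {chi A} y ∧ (∀ n, y n < h n) ∧
    ∀ x : ℕ → ℕ, Computable x → ∀ᶠ n in atTop, x n ≠ y n}

/-! ### The bound -/

/-- the bound `2 ^ k!` -/
def H (k : ℕ) : ℕ := 2 ^ k.factorial

theorem H_pos (k : ℕ) : 0 < H k := by unfold H; positivity

theorem H_mono : Monotone H := fun a b h => by
  unfold H
  exact Nat.pow_le_pow_right (by norm_num) (Nat.factorial_le h)

theorem primrec_factorial : Primrec Nat.factorial := by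
  have : Primrec (fun n : ℕ => Nat.rec (motive := fun _ => ℕ) 1 (fun k IH => (k + 1) * IH) n) :=
    Primrec.nat_rec₁ (f := fun k IH => (k + 1) * IH) 1
      ((Primrec.nat_mul.comp (Primrec.succ.comp Primrec.fst) Primrec.snd).to₂)
  refine this.of_eq fun n => ?_
  induction n with
  | zero => rfl
  | succ n ih => simp only [Nat.factorial]; rw [← ih]

theorem primrec_pow : Primrec₂ ((· ^ ·) : ℕ → ℕ → ℕ) :=
  Primrec₂.unpaired'.1 Nat.Primrec.pow

theorem primrec_H : Primrec H :=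
  primrec_pow.comp (Primrec.const 2) primrec_factorial

/-! ### Prefixes -/

/-- the first `n` values of `y` -/
def pre (y : ℕ → ℕ) (n : ℕ) : List ℕ := (List.range n).map y

theorem pre_length (y : ℕ → ℕ) (n : ℕ) : (pre y n).length = n := by simp [pre]

theorem pre_getElem? (y : ℕ → ℕ) (n k : ℕ) : (pre y n)[k]? = if k < n then some (y k) else none := by
  unfold pre
  by_cases h : k < n
  · simp [h]
  · simp [h]
    

theorem pre_add (y : ℕ → ℕ) (n m : ℕ) : ∃ ρ, pre y (n + m) = pre y n ++ ρ := by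
  refine ⟨(List.range m).map (fun k => y (n + k)), ?_⟩
  unfold pre
  rw [List.range_add, List.map_append, List.map_map]
  rfl

theorem pre_le (y : ℕ → ℕ) {n m : ℕ} (h : n ≤ m) : ∃ ρ, pre y m = pre y n ++ ρ := by
  obtain ⟨k, rfl⟩ := Nat.exists_eq_add_of_le h
  exact pre_add y n k

/-- the real coded by `y` -/
def graphSet (y : ℕ → ℕ) : Set ℕ := {q | y q.unpair.1 % H q.unpair.1 = q.unpair.2}

/-- the part of the oracle that is determined by a string -/
def orc (τ : List ℕ) (q : ℕ) : Part ℕ :=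
  ((τ[q.unpair.1]? : Option ℕ) : Part ℕ).map
    (fun w => if w % H q.unpair.1 = q.unpair.2 then 1 else 0)

theorem partrec_orc : Partrec₂ orc := by
  unfold orc
  refine Partrec.map ?_ ?_
  · exact (Primrec.list_getElem?.comp Primrec.fst
      (Primrec.fst.comp (Primrec.unpair.comp Primrec.snd))).to_comp.ofOption
  · apply Primrec.to_comp
    refine Primrec.ite ?_ (Primrec.const 1) (Primrec.const 0)
    refine Primrec.eq.comp (Primrec.nat_mod.comp Primrec.snd (primrec_H.comp ?_)) ?_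
    · exact (Primrec.fst.comp (Primrec.unpair.comp (Primrec.snd.comp Primrec.fst)))
    · exact (Primrec.snd.comp (Primrec.unpair.comp (Primrec.snd.comp Primrec.fst)))

/-- monotone functionals -/
def Mono (Ψ : List ℕ → ℕ →. ℕ) : Prop := ∀ τ ρ n v, v ∈ Ψ τ n → v ∈ Ψ (τ ++ ρ) n

theorem mono_pre {Ψ : List ℕ → ℕ →. ℕ} (h : Mono Ψ) (y : ℕ → ℕ) {k l : ℕ} (hkl : k ≤ l) {n v : ℕ}
    (hv : v ∈ Ψ (pre y k) n) : v ∈ Ψ (pre y l) n := by
  obtain ⟨ρ, hρ⟩ := pre_le y hkl
  rw [hρ]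
  exact h _ _ _ _ hv

theorem exists_functional (y : ℕ → ℕ) {f : ℕ →. ℕ} (hf : Nat.RecursiveIn {chi (graphSet y)} f) :
    ∃ Ψ : List ℕ → ℕ →. ℕ, Partrec₂ Ψ ∧ Mono Ψ ∧ ∀ n v, v ∈ f n ↔ ∃ k, v ∈ Ψ (pre y k) n := by
  induction hf with
  | zero =>
    refine ⟨fun _ _ => Part.some 0, (Computable.const 0).partrec, fun _ _ _ _ h => h, ?_⟩
    intro n v
    exact ⟨fun h => ⟨0, h⟩, fun ⟨_, h⟩ => h⟩
  | succ =>
    refine ⟨fun _ n => Part.some n.succ, (Computable.succ.comp Computable.snd).partrec,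
      fun _ _ _ _ h => h, ?_⟩
    intro n v
    exact ⟨fun h => ⟨0, h⟩, fun ⟨_, h⟩ => h⟩
  | left =>
    refine ⟨fun _ n => Part.some n.unpair.1,
      (Computable.fst.comp (Computable.unpair.comp Computable.snd)).partrec,
      fun _ _ _ _ h => h, ?_⟩
    intro n v
    exact ⟨fun h => ⟨0, h⟩, fun ⟨_, h⟩ => h⟩
  | right =>
    refine ⟨fun _ n => Part.some n.unpair.2,
      (Computable.snd.comp (Computable.unpair.comp Computable.snd)).partrec,
      fun _ _ _ _ h => h, ?_⟩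
    intro n v
    exact ⟨fun h => ⟨0, h⟩, fun ⟨_, h⟩ => h⟩
  | oracle g hg =>
    rw [Set.mem_singleton_iff] at hg
    subst hg
    refine ⟨orc, partrec_orc, ?_, ?_⟩
    · intro τ ρ n v hv
      unfold orc at hv ⊢
      simp only [Part.mem_map_iff, Part.mem_coe] at hv ⊢
      obtain ⟨a, ha, hv⟩ := hv
      refine ⟨a, ?_, hv⟩
      rw [Option.mem_def] at ha ⊢
      rw [List.getElem?_append_left]
      · exact ha
      · exact (List.getElem?_eq_some_iff.1 ha).1
    · intro n v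
      have key : ∀ k, n.unpair.1 < k → ((v ∈ chi (graphSet y) n) ↔ v ∈ orc (pre y k) n) := by
        intro k hk
        unfold orc chi graphSet
        rw [pre_getElem?, if_pos hk]
        by_cases hq : y n.unpair.1 % H n.unpair.1 = n.unpair.2
        · simp [hq]
        · simp [hq]
      constructor
      · intro h
        exact ⟨n.unpair.1 + 1, (key _ (Nat.lt_succ_self _)).1 h⟩
      · rintro ⟨k, hk⟩
        by_cases hlt : n.unpair.1 < k
        · exact (key k hlt).2 hk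
        · exfalso
          unfold orc at hk
          rw [pre_getElem?, if_neg hlt] at hk
          simp at hk
  | @pair f h hf hh ihf ihh =>
    obtain ⟨Ψ₁, p1, m1, e1⟩ := ihf
    obtain ⟨Ψ₂, p2, m2, e2⟩ := ihh
    refine ⟨fun τ n => (Ψ₁ τ n).bind fun a => (Ψ₂ τ n).map fun b => Nat.pair a b, ?_, ?_, ?_⟩
    · refine Partrec.bind p1 ?_
      refine Partrec.map (p2.comp (Computable.fst.comp Computable.fst)
        (Computable.snd.comp Computable.fst)) ?_
      exact (Primrec₂.natPair.comp (Primrec.snd.comp Primrec.fst) Primrec.snd).to_comp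
    · intro τ ρ n v hv
      simp only [Part.mem_bind_iff, Part.mem_map_iff] at hv ⊢
      obtain ⟨a, ha, b, hb, hv⟩ := hv
      exact ⟨a, m1 _ _ _ _ ha, b, m2 _ _ _ _ hb, hv⟩
    · intro n v
      have : v ∈ (Nat.pair <$> f n <*> h n) ↔ ∃ a ∈ f n, ∃ b ∈ h n, Nat.pair a b = v := by
        simp [Seq.seq]
      rw [this]
      simp only [Part.mem_bind_iff, Part.mem_map_iff]
      constructor
      · rintro ⟨a, ha, b, hb, hv⟩
        obtain ⟨k, hk⟩ := (e1 _ _).1 ha
        obtain ⟨l, hl⟩ := (e2 _ _).1 hb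
        exact ⟨max k l, a, mono_pre m1 y (le_max_left _ _) hk, b,
          mono_pre m2 y (le_max_right _ _) hl, hv⟩
      · rintro ⟨k, a, ha, b, hb, hv⟩
        exact ⟨a, (e1 _ _).2 ⟨k, ha⟩, b, (e2 _ _).2 ⟨k, hb⟩, hv⟩
  | @comp f h hf hh ihf ihh =>
    obtain ⟨Ψ₁, p1, m1, e1⟩ := ihf
    obtain ⟨Ψ₂, p2, m2, e2⟩ := ihh
    refine ⟨fun τ n => (Ψ₂ τ n).bind fun a => Ψ₁ τ a, ?_, ?_, ?_⟩
    · exact Partrec.bind p2 (p1.comp (Computable.fst.comp Computable.fst) Computable.snd)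
    · intro τ ρ n v hv
      simp only [Part.mem_bind_iff] at hv ⊢
      obtain ⟨a, ha, hv⟩ := hv
      exact ⟨a, m2 _ _ _ _ ha, m1 _ _ _ _ hv⟩
    · intro n v
      have : v ∈ (h n >>= f) ↔ ∃ a ∈ h n, v ∈ f a := by
        simp
      rw [this]
      simp only [Part.mem_bind_iff]
      constructor
      · rintro ⟨a, ha, hv⟩
        obtain ⟨k, hk⟩ := (e2 _ _).1 ha
        obtain ⟨l, hl⟩ := (e1 _ _).1 hv
        exact ⟨max k l, a, mono_pre m2 y (le_max_left _ _) hk,
          mono_pre m1 y (le_max_right _ _) hl⟩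
      · rintro ⟨k, a, ha, hv⟩
        exact ⟨a, (e2 _ _).2 ⟨k, ha⟩, (e1 _ _).2 ⟨k, hv⟩⟩
  | @prec f h hf hh ihf ihh =>
    obtain ⟨Ψ₁, p1, m1, e1⟩ := ihf
    obtain ⟨Ψ₂, p2, m2, e2⟩ := ihh
    let G : List ℕ → ℕ → ℕ → Part ℕ := fun τ a n =>
      Nat.rec (motive := fun _ => Part ℕ) (Ψ₁ τ a)
        (fun y IH => IH.bind fun i => Ψ₂ τ (Nat.pair a (Nat.pair y i))) n
    let G' : ℕ → ℕ → Part ℕ := fun a n =>
      Nat.rec (motive := fun _ => Part ℕ) (f a)
        (fun y IH => IH.bind fun i => h (Nat.pair a (Nat.pair y i))) n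
    have hG : ∀ τ ρ a n v, v ∈ G τ a n → v ∈ G (τ ++ ρ) a n := by
      intro τ ρ a n
      induction n with
      | zero => intro v hv; exact m1 _ _ _ _ hv
      | succ n ih =>
        intro v hv
        obtain ⟨i, hi, hv⟩ := Part.mem_bind_iff.1 hv
        exact Part.mem_bind_iff.2 ⟨i, ih _ hi, m2 _ _ _ _ hv⟩
    have hGp : ∀ {k l : ℕ}, k ≤ l → ∀ {a n v}, v ∈ G (pre y k) a n → v ∈ G (pre y l) a n := by
      intro k l hkl a n v hv
      obtain ⟨ρ, hρ⟩ := pre_le y hkl
      rw [hρ]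
      exact hG _ _ _ _ _ hv
    have hGG : ∀ a n v, v ∈ G' a n ↔ ∃ k, v ∈ G (pre y k) a n := by
      intro a n
      induction n with
      | zero => intro v; exact e1 _ _
      | succ n ih =>
        intro v
        constructor
        · intro hv
          obtain ⟨i, hi, hv⟩ := Part.mem_bind_iff.1 hv
          obtain ⟨k, hk⟩ := (ih _).1 hi
          obtain ⟨l, hl⟩ := (e2 _ _).1 hv
          exact ⟨max k l, Part.mem_bind_iff.2 ⟨i, hGp (le_max_left _ _) hk,
            mono_pre m2 y (le_max_right _ _) hl⟩⟩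
        · rintro ⟨k, hv⟩
          obtain ⟨i, hi, hv⟩ := Part.mem_bind_iff.1 hv
          exact Part.mem_bind_iff.2 ⟨i, (ih _).2 ⟨k, hi⟩, (e2 _ _).2 ⟨k, hv⟩⟩
    refine ⟨fun τ p => G τ p.unpair.1 p.unpair.2, ?_, ?_, ?_⟩
    · refine Partrec.nat_rec (f := fun q : List ℕ × ℕ => q.2.unpair.2)
        (g := fun q : List ℕ × ℕ => Ψ₁ q.1 q.2.unpair.1)
        (h := fun (q : List ℕ × ℕ) (r : ℕ × ℕ) =>
          Ψ₂ q.1 (Nat.pair q.2.unpair.1 (Nat.pair r.1 r.2))) ?_ ?_ ?_
      · exact Computable.snd.comp (Computable.unpair.comp Computable.snd)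
      · exact p1.comp Computable.fst (Computable.fst.comp (Computable.unpair.comp Computable.snd))
      · refine p2.comp (Computable.fst.comp Computable.fst) ?_
        apply Primrec.to_comp
        refine Primrec₂.natPair.comp ?_ (Primrec₂.natPair.comp ?_ ?_)
        · exact Primrec.fst.comp (Primrec.unpair.comp (Primrec.snd.comp Primrec.fst))
        · exact Primrec.fst.comp Primrec.snd
        · exact Primrec.snd.comp Primrec.snd
    · intro τ ρ n v hv
      exact hG _ _ _ _ _ hv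
    · intro n v
      exact hGG n.unpair.1 n.unpair.2 v
  | @rfind f hf ihf =>
    obtain ⟨Ψ₁, p1, m1, e1⟩ := ihf
    refine ⟨fun τ a => Nat.rfind fun n => (Ψ₁ τ (Nat.pair a n)).map (fun m => decide (m = 0)),
      ?_, ?_, ?_⟩
    · refine Partrec.rfind (p := fun (q : List ℕ × ℕ) (n : ℕ) =>
        (Ψ₁ q.1 (Nat.pair q.2 n)).map (fun m => decide (m = 0))) ?_
      refine Partrec.map ?_ ?_
      · refine p1.comp (Computable.fst.comp Computable.fst) ?_
        apply Primrec.to_comp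
        exact Primrec₂.natPair.comp (Primrec.snd.comp Primrec.fst) Primrec.snd
      · apply Primrec.to_comp
        exact (Primrec.eq.comp Primrec.snd (Primrec.const 0)).decide
    · intro τ ρ n v hv
      simp only [Nat.mem_rfind, Part.mem_map_iff] at hv ⊢
      obtain ⟨⟨a, ha, ha'⟩, h2⟩ := hv
      refine ⟨⟨a, m1 _ _ _ _ ha, ha'⟩, ?_⟩
      intro m hm
      obtain ⟨b, hb, hb'⟩ := h2 hm
      exact ⟨b, m1 _ _ _ _ hb, hb'⟩
    · intro n v
      have : (v ∈ Nat.rfind fun m => (fun m => decide (m = 0)) <$> f (Nat.pair n m)) ↔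
          (0 ∈ f (Nat.pair n v) ∧ ∀ m < v, ∃ b ∈ f (Nat.pair n m), b ≠ 0) := by
        simp [Nat.mem_rfind]
      have e : (v ∈ Nat.rfind fun m => (fun m => decide (m = 0)) <$> f (Nat.pair n m)) ↔
          ∃ k, v ∈ Nat.rfind fun m => (Ψ₁ (pre y k) (Nat.pair n m)).map
            (fun m => decide (m = 0)) := by
        rw [this]
        have this2 : ∀ k, (v ∈ Nat.rfind fun m => (Ψ₁ (pre y k) (Nat.pair n m)).map
            (fun m => decide (m = 0))) ↔
            (0 ∈ Ψ₁ (pre y k) (Nat.pair n v) ∧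
              ∀ m < v, ∃ b ∈ Ψ₁ (pre y k) (Nat.pair n m), b ≠ 0) := by
          intro k
          simp [Nat.mem_rfind]
        simp only [this2]
        constructor
        · rintro ⟨h1, h2⟩
          obtain ⟨k, hk⟩ := (e1 _ _).1 h1
          have h3 : ∃ K, ∀ m < v, ∃ b ∈ Ψ₁ (pre y K) (Nat.pair n m), b ≠ 0 := by
            clear this this2 h1 hk
            induction v with
            | zero => exact ⟨0, fun m hm => absurd hm (Nat.not_lt_zero _)⟩
            | succ v ih =>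
              obtain ⟨K, hK⟩ := ih (fun m hm => h2 m (by omega))
              obtain ⟨b, hb, hb0⟩ := h2 v (Nat.lt_succ_self _)
              obtain ⟨l, hl⟩ := (e1 _ _).1 hb
              refine ⟨max K l, fun m hm => ?_⟩
              rcases Nat.lt_succ_iff_lt_or_eq.1 hm with h | h
              · obtain ⟨b', hb', hb0'⟩ := hK m h
                exact ⟨b', mono_pre m1 y (le_max_left _ _) hb', hb0'⟩
              · subst h
                exact ⟨b, mono_pre m1 y (le_max_right _ _) hl, hb0⟩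
          obtain ⟨K, hK⟩ := h3
          refine ⟨max k K, mono_pre m1 y (le_max_left _ _) hk, fun m hm => ?_⟩
          obtain ⟨b, hb, hb0⟩ := hK m hm
          exact ⟨b, mono_pre m1 y (le_max_right _ _) hb, hb0⟩
        · rintro ⟨k, h1, h2⟩
          refine ⟨(e1 _ _).2 ⟨k, h1⟩, fun m hm => ?_⟩
          obtain ⟨b, hb, hb0⟩ := h2 m hm
          exact ⟨b, (e1 _ _).2 ⟨k, hb⟩, hb0⟩
      exact e


/-! ### Killers and small sets -/

/-- `f` provides at each level `k` the `R` guesses `f k i`, `i < R`; the string `ρ`, placed above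
a stem of length `s`, is killed if one of its values is guessed. -/
def Kill (f : ℕ → ℕ → ℕ) (R s : ℕ) (ρ : List ℕ) : Prop :=
  ∃ j i a, i < R ∧ ρ[j]? = some a ∧ a % H (s + j) = f (s + j) i

/-- All members of `B` above `σ` can be killed by `R` guesses at each level. -/
def Small (B : Set (List ℕ)) (σ : List ℕ) (R : ℕ) : Prop :=
  ∃ f : ℕ → ℕ → ℕ, ∀ ρ, σ ++ ρ ∈ B → Kill f R σ.length ρ

theorem Kill.append_left {f : ℕ → ℕ → ℕ} {R s : ℕ} {ρ : List ℕ} (h : Kill f R s ρ) (ρ' : List ℕ) :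
    Kill f R s (ρ ++ ρ') := by
  obtain ⟨j, i, a, hi, hj, ha⟩ := h
  refine ⟨j, i, a, hi, ?_, ha⟩
  rw [List.getElem?_append_left (List.getElem?_eq_some_iff.1 hj).1]
  exact hj

theorem kill_append {f : ℕ → ℕ → ℕ} {R s : ℕ} {ρ ρ' : List ℕ} (h : Kill f R s (ρ ++ ρ')) :
    Kill f R s ρ ∨ Kill f R (s + ρ.length) ρ' := by
  obtain ⟨j, i, a, hi, hj, ha⟩ := h
  by_cases hlt : j < ρ.length
  · left
    rw [List.getElem?_append_left hlt] at hj
    exact ⟨j, i, a, hi, hj, ha⟩
  · right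
    push Not at hlt
    rw [List.getElem?_append_right hlt] at hj
    refine ⟨j - ρ.length, i, a, hi, hj, ?_⟩
    have : s + ρ.length + (j - ρ.length) = s + j := by omega
    rw [this]
    exact ha

theorem not_kill_nil (f : ℕ → ℕ → ℕ) (R s : ℕ) : ¬ Kill f R s [] := by
  rintro ⟨j, i, a, -, hj, -⟩
  simp at hj

theorem Small.mono {B B' : Set (List ℕ)} {σ : List ℕ} {R : ℕ} (h : Small B' σ R) (hB : B ⊆ B') :
    Small B σ R := by
  obtain ⟨f, hf⟩ := h
  exact ⟨f, fun ρ hρ => hf ρ (hB hρ)⟩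

theorem Small.union {B B' : Set (List ℕ)} {σ : List ℕ} {R R' : ℕ} (h : Small B σ R)
    (h' : Small B' σ R') : Small (B ∪ B') σ (R + R') := by
  obtain ⟨f, hf⟩ := h
  obtain ⟨f', hf'⟩ := h'
  refine ⟨fun k i => if i < R then f k i else f' k (i - R), ?_⟩
  rintro ρ (hρ | hρ)
  · obtain ⟨j, i, a, hi, hj, ha⟩ := hf ρ hρ
    refine ⟨j, i, a, by omega, hj, ?_⟩
    simp only [if_pos hi]
    exact ha
  · obtain ⟨j, i, a, hi, hj, ha⟩ := hf' ρ hρ
    refine ⟨j, R + i, a, by omega, hj, ?_⟩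
    have : ¬ (R + i < R) := by omega
    simp only [if_neg this]
    rw [ha]
    congr 1
    omega

theorem Small.bigUnion {B : Set (List ℕ)} {D : ℕ → Set (List ℕ)} {σ : List ℕ} {R V : ℕ}
    (hV : 0 < V) (h : ∀ v < V, Small (B ∪ D v) σ R) :
    Small (B ∪ {τ | ∃ v < V, τ ∈ D v}) σ (R * V) := by
  classical
  choose f hf using h
  refine ⟨fun k i => if h : i / R < V then f (i / R) h k (i % R) else 0, ?_⟩
  have key : ∀ ρ v (hv : v < V), σ ++ ρ ∈ B ∪ D v → Kill (fun k i =>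
      if h : i / R < V then f (i / R) h k (i % R) else 0) (R * V) σ.length ρ := by
    intro ρ v hv hρ
    obtain ⟨j, i, a, hi, hj, ha⟩ := hf v hv ρ hρ
    have hR : 0 < R := by omega
    have h1 : (v * R + i) / R = v := by
      rw [mul_comm, Nat.mul_add_div hR, Nat.div_eq_of_lt hi, add_zero]
    have h2 : (v * R + i) % R = i := by
      rw [mul_comm, Nat.mul_add_mod, Nat.mod_eq_of_lt hi]
    refine ⟨j, v * R + i, a, ?_, hj, ?_⟩
    · calc v * R + i < v * R + R := by omega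
        _ = (v + 1) * R := by ring
        _ ≤ V * R := Nat.mul_le_mul_right _ hv
        _ = R * V := mul_comm _ _
    · simp only [h1, h2, dif_pos hv]
      exact ha
  rintro ρ (hρ | ⟨v, hv, hρ⟩)
  · exact key ρ 0 hV (Or.inl hρ)
  · exact key ρ v hv (Or.inr hρ)

theorem small_extend {B : Set (List ℕ)} {σ ρ₀ : List ℕ} {R : ℕ} {f : ℕ → ℕ → ℕ}
    (hf : ∀ ρ, σ ++ ρ ∈ B → Kill f R σ.length ρ) (h0 : ¬ Kill f R σ.length ρ₀) :
    Small B (σ ++ ρ₀) R := by
  refine ⟨f, fun ρ hρ => ?_⟩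
  rw [List.append_assoc] at hρ
  rcases kill_append (hf _ hρ) with h | h
  · exact absurd h h0
  · rw [List.length_append]; exact h

theorem exists_lt_forall_ne (R V : ℕ) (g : ℕ → ℕ) (h : R < V) : ∃ a < V, ∀ i < R, a ≠ g i := by
  by_contra hcon
  push Not at hcon
  have h1 : Finset.range V ⊆ (Finset.range R).image g := by
    intro a ha
    obtain ⟨i, hi, hai⟩ := hcon a (Finset.mem_range.1 ha)
    exact Finset.mem_image.2 ⟨i, Finset.mem_range.2 hi, hai.symm⟩
  have h2 := (Finset.card_le_card h1).trans Finset.card_image_le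
  simp at h2
  omega

/-- unkilled extensions of any length -/
theorem exists_unkilled (f : ℕ → ℕ → ℕ) {R s : ℕ} (h : R < H s) (n : ℕ) :
    ∃ ρ : List ℕ, ρ.length = n ∧ ¬ Kill f R s ρ := by
  induction n with
  | zero => exact ⟨[], rfl, not_kill_nil f R s⟩
  | succ n ih =>
    obtain ⟨ρ, hρ, hk⟩ := ih
    obtain ⟨a, ha, hai⟩ := exists_lt_forall_ne R (H (s + n)) (f (s + n))
      (h.trans_le (H_mono (Nat.le_add_right _ _)))
    refine ⟨ρ ++ [a], by simp [hρ], fun hk' => ?_⟩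
    rcases kill_append hk' with h1 | h1
    · exact hk h1
    · obtain ⟨j, i, b, hi, hj, hb⟩ := h1
      cases j with
      | zero =>
        simp only [List.getElem?_cons_zero, Option.some.injEq] at hj
        subst hj
        rw [hρ, add_zero, Nat.mod_eq_of_lt ha] at hb
        exact hai i hi hb
      | succ j => simp at hj

theorem lt_H_of_le {R s : ℕ} (h : R + 5 ≤ s) : R < H s := by
  calc R < s := by omega
    _ < 2 ^ s := Nat.lt_two_pow_self
    _ ≤ 2 ^ s.factorial := Nat.pow_le_pow_right (by norm_num) (Nat.self_le_factorial s)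

/-- compactness -/
theorem exists_finite_of_not_small {B : Set (List ℕ)} {σ : List ℕ} {R : ℕ} (h : ¬ Small B σ R) :
    ∃ L : List (List ℕ), (∀ ρ ∈ L, σ ++ ρ ∈ B) ∧ ∀ f, ∃ ρ ∈ L, ¬ Kill f R σ.length ρ := by
  classical
  have : ∀ k, NeZero (H k) := fun k => ⟨(H_pos k).ne'⟩
  let X := (p : ℕ × ℕ) → Fin (H p.1)
  let toF : X → ℕ → ℕ → ℕ := fun x k i => (x (k, i) : ℕ)
  let T := {ρ : List ℕ // σ ++ ρ ∈ B}
  let C : T → Set X := fun ρ => {x | Kill (toF x) R σ.length ρ.1}
  have hC : ∀ ρ, IsClosed (C ρ) := by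
    intro ρ
    have : C ρ = ⋃ j ∈ Finset.range ρ.1.length, ⋃ i ∈ Finset.range R,
        {x : X | ∃ a, ρ.1[j]? = some a ∧ a % H (σ.length + j) = (x (σ.length + j, i) : ℕ)} := by
      ext x
      simp only [C, Kill, toF, Set.mem_ofPred_eq, Set.mem_iUnion, Finset.mem_range]
      constructor
      · rintro ⟨j, i, a, hi, hj, ha⟩
        exact ⟨j, (List.getElem?_eq_some_iff.1 hj).1, i, hi, a, hj, ha⟩
      · rintro ⟨j, _, i, hi, a, hj, ha⟩
        exact ⟨j, i, a, hi, hj, ha⟩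
    rw [this]
    refine isClosed_biUnion_finset fun j _ => isClosed_biUnion_finset fun i _ => ?_
    have h2 : {x : X | ∃ a, ρ.1[j]? = some a ∧
        a % H (σ.length + j) = (x (σ.length + j, i) : ℕ)} =
        (fun x : X => x (σ.length + j, i)) ⁻¹'
          {b | ∃ a, ρ.1[j]? = some a ∧ a % H (σ.length + j) = (b : ℕ)} := rfl
    rw [h2]
    exact (isClosed_discrete _).preimage (continuous_apply _)
  have hempty : (Set.univ ∩ ⋂ ρ, C ρ) = ∅ := by
    rw [Set.univ_inter, Set.eq_empty_iff_forall_notMem]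
    intro x hx
    apply h
    refine ⟨toF x, fun ρ hρ => ?_⟩
    exact Set.mem_iInter.1 hx ⟨ρ, hρ⟩
  obtain ⟨t, ht⟩ := isCompact_univ.elim_finite_subfamily_closed C hC hempty
  refine ⟨t.toList.map Subtype.val, ?_, ?_⟩
  · intro ρ hρ
    simp only [List.mem_map, Finset.mem_toList] at hρ
    obtain ⟨ρ', -, rfl⟩ := hρ
    exact ρ'.2
  · intro f
    let x : X := fun p => ⟨f p.1 p.2 % H p.1, Nat.mod_lt _ (H_pos _)⟩
    have hx : x ∉ (Set.univ ∩ ⋂ ρ ∈ t, C ρ) := by rw [ht]; exact Set.notMem_empty _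
    simp only [Set.univ_inter, Set.mem_iInter, not_forall] at hx
    obtain ⟨ρ, hρt, hρ⟩ := hx
    refine ⟨ρ.1, ?_, ?_⟩
    · simp only [List.mem_map, Finset.mem_toList]
      exact ⟨ρ, hρt, rfl⟩
    · rintro ⟨j, i, a, hi, hj, ha⟩
      apply hρ
      refine ⟨j, i, a, hi, hj, ?_⟩
      show a % H (σ.length + j) = f (σ.length + j) i % H (σ.length + j)
      rw [← ha, Nat.mod_mod]

/-! ### Counting -/

theorem card_mod_eq_le (K r c : ℕ) :
    ((Finset.range K).filter (fun j => j % r = c)).card ≤ K / r + 1 := by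
  have : ((Finset.range K).filter (fun j => j % r = c)).card ≤ (Finset.range (K / r + 1)).card := by
    apply Finset.card_le_card_of_injOn (fun j => j / r)
    · intro j hj
      simp only [Finset.coe_filter, Finset.mem_range, Set.mem_ofPred_eq] at hj
      simp only [Finset.coe_range, Set.mem_Iio]
      exact Nat.lt_succ_of_le (Nat.div_le_div_right hj.1.le)
    · intro a ha b hb hab
      simp only [Finset.coe_filter, Finset.mem_range, Set.mem_ofPred_eq] at ha hb
      simp only at hab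
      rw [← Nat.div_add_mod a r, ← Nat.div_add_mod b r, hab, ha.2, hb.2]
  simpa using this

theorem exists_replicate_unkilled (f : ℕ → ℕ → ℕ) {R s : ℕ} (hs : R + 5 ≤ s) (N : ℕ) :
    ∃ j < 2 * (R * N) + 1, ¬ Kill f R s (List.replicate N j) := by
  by_contra hcon
  push Not at hcon
  set K := 2 * (R * N) + 1 with hK
  have h1 : Finset.range K ⊆ (Finset.range N).biUnion fun k => (Finset.range R).biUnion fun i =>
      (Finset.range K).filter (fun j => j % H (s + k) = f (s + k) i) := by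
    intro j hj
    obtain ⟨k, i, a, hi, hk, ha⟩ := hcon j (Finset.mem_range.1 hj)
    rw [List.getElem?_replicate] at hk
    split_ifs at hk with hkN
    · simp only [Option.some.injEq] at hk
      subst hk
      simp only [Finset.mem_biUnion, Finset.mem_range, Finset.mem_filter]
      exact ⟨k, hkN, i, hi, Finset.mem_range.1 hj, ha⟩
  have h2 := Finset.card_le_card h1
  have h3 : ((Finset.range N).biUnion fun k => (Finset.range R).biUnion fun i =>
      (Finset.range K).filter (fun j => j % H (s + k) = f (s + k) i)).card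
      ≤ ∑ k ∈ Finset.range N, R * (K / 2 ^ s / 2 ^ k + 1) := by
    refine Finset.card_biUnion_le.trans (Finset.sum_le_sum fun k _ => ?_)
    refine Finset.card_biUnion_le.trans ?_
    have : ∀ i ∈ Finset.range R, ((Finset.range K).filter
        (fun j => j % H (s + k) = f (s + k) i)).card ≤ K / 2 ^ s / 2 ^ k + 1 := by
      intro i _
      refine (card_mod_eq_le _ _ _).trans ?_
      rw [Nat.div_div_eq_div_mul, ← pow_add]
      apply Nat.succ_le_succ
      apply Nat.div_le_div_left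
      · exact Nat.pow_le_pow_right (by norm_num) (Nat.self_le_factorial _)
      · positivity
    refine (Finset.sum_le_card_nsmul _ _ _ this).trans ?_
    simp
  have h4 : ∑ k ∈ Finset.range N, R * (K / 2 ^ s / 2 ^ k + 1)
      ≤ R * (2 * (K / 2 ^ s)) + R * N := by
    rw [← Finset.mul_sum, Finset.sum_add_distrib, mul_add]
    have h5 : ∑ k ∈ Finset.range N, K / 2 ^ s / 2 ^ k ≤ K / 2 ^ s * 2 / (2 - 1) :=
      Nat.geom_sum_le (le_refl 2) _ _
    have h6 : K / 2 ^ s * 2 / (2 - 1) = 2 * (K / 2 ^ s) := by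
      simp; ring
    rw [h6] at h5
    simp only [Finset.sum_const, Finset.card_range, smul_eq_mul, mul_one]
    exact Nat.add_le_add_right (Nat.mul_le_mul_left _ h5) _
  have h5 : 4 * R * (K / 2 ^ s) ≤ K := by
    have h6 : 4 * R ≤ 2 ^ s := by
      calc 4 * R ≤ 4 * 2 ^ R := Nat.mul_le_mul_left _ Nat.lt_two_pow_self.le
        _ = 2 ^ (R + 2) := by ring
        _ ≤ 2 ^ s := Nat.pow_le_pow_right (by norm_num) (by omega)
    calc 4 * R * (K / 2 ^ s) ≤ 2 ^ s * (K / 2 ^ s) := Nat.mul_le_mul_right _ h6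
      _ ≤ K := Nat.mul_div_le _ _
  have h7 : K ≤ R * (2 * (K / 2 ^ s)) + R * N := by
    have := h2.trans (h3.trans h4)
    simpa using this
  have h8 : 4 * R * (K / 2 ^ s) = 2 * (R * (2 * (K / 2 ^ s))) := by ring
  omega

theorem exists_big (R M s : ℕ) : ∃ N, R * 2 ^ 2 ^ (M + 2 * (R * N)) < H (s + N) := by
  obtain ⟨N, hN⟩ : ∃ N : ℕ, 2 ^ (R + M) * (2 ^ (2 * R)) ^ N < N.factorial := by
    have h1 := FloorSemiring.tendsto_pow_div_factorial_atTop (K := ℝ) (2 ^ (2 * R))
    have h2 : (0 : ℝ) < (2 ^ (R + M))⁻¹ := by positivity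
    obtain ⟨N, hN⟩ := (h1.eventually (gt_mem_nhds h2)).exists
    refine ⟨N, ?_⟩
    have h3 : (0 : ℝ) < N.factorial := by exact_mod_cast N.factorial_pos
    rw [div_lt_iff₀ h3] at hN
    have h4 : (0 : ℝ) < 2 ^ (R + M) := by positivity
    have h5 : (2 : ℝ) ^ (R + M) * (2 ^ (2 * R)) ^ N < N.factorial := by
      have := mul_lt_mul_of_pos_left hN h4
      rwa [← mul_assoc, mul_inv_cancel₀ h4.ne', one_mul] at this
    exact_mod_cast h5
  refine ⟨N, ?_⟩
  have h1 : R + 2 ^ (M + 2 * (R * N)) ≤ 2 ^ (R + M) * (2 ^ (2 * R)) ^ N := by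
    have e : 2 ^ (R + M) * (2 ^ (2 * R)) ^ N = 2 ^ R * 2 ^ (M + 2 * (R * N)) := by
      rw [← pow_mul, ← pow_add, ← pow_add]
      congr 1
      ring
    rw [e]
    have hx : 1 ≤ 2 ^ (M + 2 * (R * N)) := Nat.one_le_two_pow
    have hR : R + 1 ≤ 2 ^ R := Nat.lt_two_pow_self
    calc R + 2 ^ (M + 2 * (R * N)) ≤ R * 2 ^ (M + 2 * (R * N)) + 2 ^ (M + 2 * (R * N)) :=
          Nat.add_le_add_right (Nat.le_mul_of_pos_right _ hx) _
      _ = (R + 1) * 2 ^ (M + 2 * (R * N)) := by ring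
      _ ≤ _ := Nat.mul_le_mul_right _ hR
  calc R * 2 ^ 2 ^ (M + 2 * (R * N)) ≤ 2 ^ R * 2 ^ 2 ^ (M + 2 * (R * N)) :=
        Nat.mul_le_mul_right _ Nat.lt_two_pow_self.le
    _ = 2 ^ (R + 2 ^ (M + 2 * (R * N))) := (pow_add 2 R _).symm
    _ ≤ 2 ^ (2 ^ (R + M) * (2 ^ (2 * R)) ^ N) := Nat.pow_le_pow_right (by norm_num) h1
    _ < 2 ^ N.factorial := Nat.pow_lt_pow_right (by norm_num) hN
    _ ≤ H (s + N) := Nat.pow_le_pow_right (by norm_num) (Nat.factorial_le (Nat.le_add_left _ _))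

/-- the strings deciding `Ψ` at `m` with a value below `2 ^ 2 ^ m` -/
def Dm (Ψ : List ℕ → ℕ →. ℕ) (m : ℕ) : Set (List ℕ) := {τ | ∃ v < 2 ^ 2 ^ m, v ∈ Ψ τ m}

/-- the core combinatorial fact -/
theorem core {B : Set (List ℕ)} {Ψ : List ℕ → ℕ →. ℕ} {σ₀ : List ℕ}
    (hB : ∀ ρ m R, R < H (σ₀ ++ ρ).length → ¬ Small (B ∪ Dm Ψ m) (σ₀ ++ ρ) R)
    (ρ : List ℕ) (R M : ℕ) (hR : R + 5 ≤ (σ₀ ++ ρ).length) :
    ∃ vs : List ℕ, ¬ Small (B ∪ {τ | ∃ j v, vs[j]? = some v ∧ v ∈ Ψ τ (M + j)}) (σ₀ ++ ρ) R := by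
  obtain ⟨N, hN⟩ := exists_big R M (σ₀ ++ ρ).length
  have h1 : ∀ j < 2 * (R * N) + 1, ∃ v < 2 ^ 2 ^ (M + j),
      ¬ Small (B ∪ {τ | v ∈ Ψ τ (M + j)}) (σ₀ ++ (ρ ++ List.replicate N j)) R := by
    intro j hj
    by_contra hcon
    push Not at hcon
    have h2 := Small.bigUnion (B := B) (D := fun v => {τ | v ∈ Ψ τ (M + j)}) (by positivity) hcon
    refine hB (ρ ++ List.replicate N j) (M + j) _ ?_ h2
    have hl : (σ₀ ++ (ρ ++ List.replicate N j)).length = (σ₀ ++ ρ).length + N := by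
      simp [add_assoc]
    rw [hl]
    refine lt_of_le_of_lt (Nat.mul_le_mul_left _ ?_) hN
    apply Nat.pow_le_pow_right (by norm_num)
    apply Nat.pow_le_pow_right (by norm_num)
    omega
  choose! v hv hvs using h1
  refine ⟨(List.range (2 * (R * N) + 1)).map v, ?_⟩
  rintro ⟨f, hf⟩
  obtain ⟨j, hj, hjk⟩ := exists_replicate_unkilled f hR N
  apply hvs j hj
  have h3 : Small (B ∪ {τ | ∃ j' v', ((List.range (2 * (R * N) + 1)).map v)[j']? = some v' ∧
      v' ∈ Ψ τ (M + j')}) ((σ₀ ++ ρ) ++ List.replicate N j) R := small_extend hf hjk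
  rw [← List.append_assoc]
  refine h3.mono ?_
  rintro τ (hτ | hτ)
  · exact Or.inl hτ
  · refine Or.inr ⟨j, v j, ?_, hτ⟩
    simp [hj]


/-! ### Effectivity -/

/-- semidecidable predicates, by primitive recursive approximations -/
def SD {α : Type} [Primcodable α] (p : α → Prop) : Prop :=
  ∃ q : α → ℕ → Prop, PrimrecRel q ∧ ∀ a, p a ↔ ∃ t, q a t

theorem approx {α β : Type} [Primcodable α] [Primcodable β] {f : α →. β} (hf : Partrec f) :
    ∃ g : α → ℕ → Option β, Primrec₂ g ∧ ∀ a v, v ∈ f a ↔ ∃ t, g a t = some v := by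
  obtain ⟨c, hc⟩ := Nat.Partrec.Code.exists_code.1 hf
  refine ⟨fun a t => (Nat.Partrec.Code.evaln t c (encode a)).bind decode, ?_, ?_⟩
  · refine Primrec.option_bind ?_ (Primrec.decode.comp Primrec.snd).to₂
    exact Nat.Partrec.Code.primrec_evaln.comp
      (Primrec.pair (Primrec.pair Primrec.snd (Primrec.const c))
        (Primrec.encode.comp Primrec.fst))
  · intro a v
    have h1 : ∀ u, u ∈ c.eval (encode a) ↔ ∃ v ∈ f a, encode v = u := by
      intro u
      rw [hc]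
      simp [Part.mem_map_iff]
    constructor
    · intro hv
      have := (h1 (encode v)).2 ⟨v, hv, rfl⟩
      obtain ⟨t, ht⟩ := Nat.Partrec.Code.evaln_complete.1 this
      refine ⟨t, ?_⟩
      rw [Option.mem_def] at ht
      beta_reduce
      rw [ht]
      simp
    · rintro ⟨t, ht⟩
      rw [Option.bind_eq_some_iff] at ht
      obtain ⟨u, hu, huv⟩ := ht
      obtain ⟨v', hv', rfl⟩ := (h1 u).1 (Nat.Partrec.Code.evaln_sound (Option.mem_def.2 hu))
      rw [encodek, Option.some.injEq] at huv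
      rwa [← huv]

theorem SD.or {α : Type} [Primcodable α] {p p' : α → Prop} (h : SD p) (h' : SD p') :
    SD (fun a => p a ∨ p' a) := by
  obtain ⟨q, hq, e⟩ := h
  obtain ⟨q', hq', e'⟩ := h'
  refine ⟨fun a t => q a t ∨ q' a t, PrimrecPred.or hq hq', fun a => ?_⟩
  beta_reduce
  rw [e, e']
  constructor
  · rintro (⟨t, ht⟩ | ⟨t, ht⟩)
    · exact ⟨t, Or.inl ht⟩
    · exact ⟨t, Or.inr ht⟩
  · rintro ⟨t, ht | ht⟩
    · exact Or.inl ⟨t, ht⟩
    · exact Or.inr ⟨t, ht⟩

theorem SD_Dm {Ψ : List ℕ → ℕ →. ℕ} (hΨ : Partrec₂ Ψ) (m : ℕ) : SD (fun τ => τ ∈ Dm Ψ m) := by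
  obtain ⟨g, hg, e⟩ := approx hΨ
  refine ⟨fun τ t => ((g (τ, m) t).getD (2 ^ 2 ^ m)) < 2 ^ 2 ^ m, ?_, ?_⟩
  · refine Primrec.nat_lt.comp ?_ (Primrec.const _)
    refine Primrec.option_getD.comp ?_ (Primrec.const _)
    exact hg.comp (Primrec.pair Primrec.fst (Primrec.const m)) Primrec.snd
  · intro τ
    constructor
    · rintro ⟨v, hv, hvm⟩
      obtain ⟨t, ht⟩ := (e (τ, m) v).1 hvm
      refine ⟨t, ?_⟩
      beta_reduce
      rw [ht]
      exact hv
    · rintro ⟨t, ht⟩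
      cases h : g (τ, m) t with
      | none => rw [h] at ht; exact absurd ht (lt_irrefl _)
      | some v =>
        rw [h] at ht
        exact ⟨v, ht, (e (τ, m) v).2 ⟨t, h⟩⟩

/-- the strings which agree with `x` somewhere at or above level `s` -/
def Ex (x : ℕ → ℕ) (s : ℕ) : Set (List ℕ) :=
  {τ | ∃ k < τ.length, s ≤ k ∧ (τ.getD k 0) % H k = x k}

theorem SD_Ex {x : ℕ → ℕ} (hx : Computable x) (s : ℕ) : SD (fun τ => τ ∈ Ex x s) := by
  obtain ⟨g, hg, e⟩ := approx hx.partrec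
  refine ⟨fun τ t => ∃ k ∈ List.range τ.length, s ≤ k ∧ g k t = some ((τ.getD k 0) % H k), ?_, ?_⟩
  · have h1 : PrimrecRel (fun (k : ℕ) (q : List ℕ × ℕ) => s ≤ k ∧
        g k q.2 = some ((q.1.getD k 0) % H k)) := by
      refine PrimrecPred.and ?_ ?_
      · exact Primrec.nat_le.comp (Primrec.const s) Primrec.fst
      · refine Primrec.eq.comp ?_ ?_
        · exact hg.comp Primrec.fst (Primrec.snd.comp Primrec.snd)
        · refine Primrec.option_some.comp ?_
          refine Primrec.nat_mod.comp ?_ (primrec_H.comp Primrec.fst)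
          exact (Primrec.list_getD 0).comp (Primrec.fst.comp Primrec.snd) Primrec.fst
    exact h1.exists_mem_list.comp (Primrec.list_range.comp (Primrec.list_length.comp Primrec.fst))
      Primrec.id
  · intro τ
    have hxk : ∀ k v, v = x k ↔ ∃ t, g k t = some v := by
      intro k v
      rw [← e k v]
      simp
    constructor
    · rintro ⟨k, hk, hs, h⟩
      obtain ⟨t, ht⟩ := (hxk k _).1 h
      exact ⟨t, k, List.mem_range.2 hk, hs, ht⟩
    · rintro ⟨t, k, hk, hs, ht⟩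
      exact ⟨k, List.mem_range.1 hk, hs, (hxk k _).2 ⟨t, ht⟩⟩

theorem exists_digits (b J : ℕ) (hb : 0 < b) (d : ℕ → ℕ) (hd : ∀ j, d j < b) :
    ∃ n < b ^ J, ∀ j < J, n / b ^ j % b = d j := by
  induction J generalizing d with
  | zero => exact ⟨0, by simp, fun j hj => absurd hj (Nat.not_lt_zero _)⟩
  | succ J ih =>
    obtain ⟨n, hn, h⟩ := ih (fun j => d (j + 1)) (fun j => hd _)
    refine ⟨d 0 + b * n, ?_, ?_⟩
    · calc d 0 + b * n < b + b * n := Nat.add_lt_add_right (hd 0) _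
        _ = b * (n + 1) := by ring
        _ ≤ b * b ^ J := Nat.mul_le_mul_left _ hn
        _ = b ^ (J + 1) := by ring
    · intro j hj
      cases j with
      | zero => simp [Nat.mod_eq_of_lt (hd 0)]
      | succ j =>
        rw [pow_succ', ← Nat.div_div_eq_div_mul, Nat.add_mul_div_left _ _ hb,
          Nat.div_eq_of_lt (hd 0), zero_add]
        exact h j (by omega)

/-- the decidable test for bigness -/
def Chk (R s b l : ℕ) (L : List (List ℕ × ℕ)) : Prop :=
  ∀ n ∈ List.range ((b + 1) ^ (l * R)), ∃ p ∈ L, ∀ e ∈ List.range (l * R),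
    p.1[e / R]? = none ∨ p.1.getD (e / R) 0 % H (s + e / R) ≠ n / (b + 1) ^ e % (b + 1)

theorem chk_sound {R s b l : ℕ} {L : List (List ℕ × ℕ)} (h : Chk R s b l L)
    (hl : ∀ p ∈ L, p.1.length ≤ l ∧ ∀ a ∈ p.1, a ≤ b) (f : ℕ → ℕ → ℕ) :
    ∃ p ∈ L, ¬ Kill f R s p.1 := by
  obtain ⟨n, hn, hd⟩ := exists_digits (b + 1) (l * R) (Nat.succ_pos b)
    (fun e => if f (s + e / R) (e % R) ≤ b then f (s + e / R) (e % R) else 0)
    (fun e => by split_ifs <;> omega)
  obtain ⟨p, hp, hpe⟩ := h n (List.mem_range.2 hn)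
  refine ⟨p, hp, ?_⟩
  rintro ⟨j, i, a, hi, hj, ha⟩
  obtain ⟨h1, h2⟩ := hl p hp
  have hR : 0 < R := by omega
  obtain ⟨hjl, hja⟩ := List.getElem?_eq_some_iff.1 hj
  have hab : a ≤ b := h2 a (hja ▸ List.getElem_mem hjl)
  have hj1 : (j * R + i) / R = j := by
    rw [mul_comm, Nat.mul_add_div hR, Nat.div_eq_of_lt hi, add_zero]
  have hj2 : (j * R + i) % R = i := by
    rw [mul_comm, Nat.mul_add_mod, Nat.mod_eq_of_lt hi]
  have he : j * R + i < l * R := by
    calc j * R + i < j * R + R := by omega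
      _ = (j + 1) * R := by ring
      _ ≤ l * R := Nat.mul_le_mul_right _ (by omega)
  rcases hpe _ (List.mem_range.2 he) with h3 | h3
  · rw [hj1, hj] at h3
    exact absurd h3 (by simp)
  · apply h3
    rw [hd _ he, hj1, hj2]
    have h4 : p.1.getD j 0 = a := by
      rw [List.getD_eq_getElem?_getD, hj]
      rfl
    rw [h4, if_pos]
    · exact ha
    · rw [← ha]
      exact (Nat.mod_le _ _).trans hab

theorem chk_complete {R s : ℕ} {L : List (List ℕ × ℕ)} (h : ∀ f, ∃ p ∈ L, ¬ Kill f R s p.1) :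
    ∃ b l, Chk R s b l L ∧ ∀ p ∈ L, p.1.length ≤ l ∧ ∀ a ∈ p.1, a ≤ b := by
  have h1 : ∀ p ∈ L, p.1.length ≤ (L.map fun p => p.1.length).sum := by
    intro p hp
    exact List.single_le_sum (by simp) _ (List.mem_map.2 ⟨p, hp, rfl⟩)
  have h2 : ∀ p ∈ L, ∀ a ∈ p.1, a ≤ (L.map fun p => p.1.sum).sum := by
    intro p hp a ha
    exact (List.single_le_sum (by simp) _ ha).trans
      (List.single_le_sum (by simp) _ (List.mem_map.2 ⟨p, hp, rfl⟩))
  refine ⟨_, _, ?_, fun p hp => ⟨h1 p hp, h2 p hp⟩⟩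
  intro n _
  obtain ⟨p, hp, hk⟩ := h (fun k i => n / ((L.map fun p => p.1.sum).sum + 1) ^ ((k - s) * R + i) %
    ((L.map fun p => p.1.sum).sum + 1))
  refine ⟨p, hp, ?_⟩
  intro e he
  rw [List.mem_range] at he
  have hR : 0 < R := by
    rcases Nat.eq_zero_or_pos R with h | h
    · subst h; simp at he
    · exact h
  cases hj : p.1[e / R]? with
  | none => exact Or.inl rfl
  | some a =>
    right
    intro hcon
    apply hk
    refine ⟨e / R, e % R, a, Nat.mod_lt _ hR, hj, ?_⟩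
    have h4 : p.1.getD (e / R) 0 = a := by
      rw [List.getD_eq_getElem?_getD, hj]
      rfl
    rw [h4] at hcon
    rw [hcon]
    have h5 : (s + e / R - s) * R + e % R = e := by
      rw [Nat.add_sub_cancel_left]
      exact Nat.div_add_mod' e R
    beta_reduce
    rw [h5]


/-! ### The test is primitive recursive -/

theorem primrec_Chk : PrimrecPred (fun c : (ℕ × ℕ) × (ℕ × ℕ) × List (List ℕ × ℕ) =>
    Chk c.1.1 c.1.2 c.2.1.1 c.2.1.2 c.2.2) := by
  -- coordinates of the parameter `c`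
  have cR : Primrec (fun c : (ℕ × ℕ) × (ℕ × ℕ) × List (List ℕ × ℕ) => c.1.1) :=
    Primrec.fst.comp Primrec.fst
  have cs : Primrec (fun c : (ℕ × ℕ) × (ℕ × ℕ) × List (List ℕ × ℕ) => c.1.2) :=
    Primrec.snd.comp Primrec.fst
  have cb : Primrec (fun c : (ℕ × ℕ) × (ℕ × ℕ) × List (List ℕ × ℕ) => c.2.1.1) :=
    Primrec.fst.comp (Primrec.fst.comp Primrec.snd)
  have cl : Primrec (fun c : (ℕ × ℕ) × (ℕ × ℕ) × List (List ℕ × ℕ) => c.2.1.2) :=
    Primrec.snd.comp (Primrec.fst.comp Primrec.snd)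
  have cL : Primrec (fun c : (ℕ × ℕ) × (ℕ × ℕ) × List (List ℕ × ℕ) => c.2.2) :=
    Primrec.snd.comp Primrec.snd
  -- innermost relation
  have h1 : PrimrecRel (fun (e : ℕ)
      (z : (List ℕ × ℕ) × ℕ × (ℕ × ℕ) × (ℕ × ℕ) × List (List ℕ × ℕ)) =>
      z.1.1[e / z.2.2.1.1]? = none ∨ z.1.1.getD (e / z.2.2.1.1) 0 % H (z.2.2.1.2 + e / z.2.2.1.1) ≠
        z.2.1 / (z.2.2.2.1.1 + 1) ^ e % (z.2.2.2.1.1 + 1)) := by
    have zc : Primrec (fun (w : ℕ × (List ℕ × ℕ) × ℕ × (ℕ × ℕ) × (ℕ × ℕ) × List (List ℕ × ℕ)) =>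
        w.2.2.2) := Primrec.snd.comp (Primrec.snd.comp Primrec.snd)
    have zn : Primrec (fun (w : ℕ × (List ℕ × ℕ) × ℕ × (ℕ × ℕ) × (ℕ × ℕ) × List (List ℕ × ℕ)) =>
        w.2.2.1) := Primrec.fst.comp (Primrec.snd.comp Primrec.snd)
    have zp : Primrec (fun (w : ℕ × (List ℕ × ℕ) × ℕ × (ℕ × ℕ) × (ℕ × ℕ) × List (List ℕ × ℕ)) =>
        w.2.1.1) := Primrec.fst.comp (Primrec.fst.comp Primrec.snd)
    have ze : Primrec (fun (w : ℕ × (List ℕ × ℕ) × ℕ × (ℕ × ℕ) × (ℕ × ℕ) × List (List ℕ × ℕ)) =>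
        w.1) := Primrec.fst
    have zd := Primrec.nat_div.comp ze (cR.comp zc)
    refine PrimrecPred.or ?_ (PrimrecPred.not ?_)
    · exact Primrec.eq.comp (Primrec.list_getElem?.comp zp zd) (Primrec.const none)
    · refine Primrec.eq.comp ?_ ?_
      · refine Primrec.nat_mod.comp ((Primrec.list_getD 0).comp zp zd) ?_
        exact primrec_H.comp (Primrec.nat_add.comp (cs.comp zc) zd)
      · refine Primrec.nat_mod.comp (Primrec.nat_div.comp zn ?_) ?_
        · exact primrec_pow.comp (Primrec.succ.comp (cb.comp zc)) ze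
        · exact Primrec.succ.comp (cb.comp zc)
  have h2 : PrimrecPred (fun
      (z : (List ℕ × ℕ) × ℕ × (ℕ × ℕ) × (ℕ × ℕ) × List (List ℕ × ℕ)) =>
      ∀ e ∈ List.range (z.2.2.2.1.2 * z.2.2.1.1),
      z.1.1[e / z.2.2.1.1]? = none ∨ z.1.1.getD (e / z.2.2.1.1) 0 % H (z.2.2.1.2 + e / z.2.2.1.1) ≠
        z.2.1 / (z.2.2.2.1.1 + 1) ^ e % (z.2.2.2.1.1 + 1)) := by
    refine h1.forall_mem_list.comp (Primrec.list_range.comp (Primrec.nat_mul.comp ?_ ?_)) Primrec.id
    · exact cl.comp (Primrec.snd.comp Primrec.snd)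
    · exact cR.comp (Primrec.snd.comp Primrec.snd)
  have h3 : PrimrecRel (fun (p : List ℕ × ℕ)
      (y : ℕ × (ℕ × ℕ) × (ℕ × ℕ) × List (List ℕ × ℕ)) =>
      ∀ e ∈ List.range (y.2.2.1.2 * y.2.1.1),
      p.1[e / y.2.1.1]? = none ∨ p.1.getD (e / y.2.1.1) 0 % H (y.2.1.2 + e / y.2.1.1) ≠
        y.1 / (y.2.2.1.1 + 1) ^ e % (y.2.2.1.1 + 1)) := h2
  have h4 : PrimrecPred (fun
      (y : ℕ × (ℕ × ℕ) × (ℕ × ℕ) × List (List ℕ × ℕ)) =>
      ∃ p ∈ y.2.2.2, ∀ e ∈ List.range (y.2.2.1.2 * y.2.1.1),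
      p.1[e / y.2.1.1]? = none ∨ p.1.getD (e / y.2.1.1) 0 % H (y.2.1.2 + e / y.2.1.1) ≠
        y.1 / (y.2.2.1.1 + 1) ^ e % (y.2.2.1.1 + 1)) :=
    h3.exists_mem_list.comp (cL.comp Primrec.snd) Primrec.id
  have h5 : PrimrecRel (fun (n : ℕ)
      (c : (ℕ × ℕ) × (ℕ × ℕ) × List (List ℕ × ℕ)) =>
      ∃ p ∈ c.2.2, ∀ e ∈ List.range (c.2.1.2 * c.1.1),
      p.1[e / c.1.1]? = none ∨ p.1.getD (e / c.1.1) 0 % H (c.1.2 + e / c.1.1) ≠
        n / (c.2.1.1 + 1) ^ e % (c.2.1.1 + 1)) := h4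
  exact h5.forall_mem_list.comp (Primrec.list_range.comp
    (primrec_pow.comp (Primrec.succ.comp cb) (Primrec.nat_mul.comp cl cR))) Primrec.id

/-- stage approximation of membership in `B ∪ {τ | ∃ j, Ψ τ (M + j) = vs[j]}` -/
def Wt (qB : List ℕ → ℕ → Prop) (g : List ℕ × ℕ → ℕ → Option ℕ) (M : ℕ) (vs : List ℕ)
    (τ : List ℕ) (t : ℕ) : Prop :=
  qB τ t ∨ ∃ j ∈ List.range vs.length, g (τ, M + j) t = vs[j]?

theorem primrec_Wt {qB : List ℕ → ℕ → Prop} {g : List ℕ × ℕ → ℕ → Option ℕ}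
    (hq : PrimrecRel qB) (hg : Primrec₂ g) :
    PrimrecPred (fun c : (ℕ × List ℕ) × (List ℕ × ℕ) => Wt qB g c.1.1 c.1.2 c.2.1 c.2.2) := by
  refine PrimrecPred.or ?_ ?_
  · exact hq.comp (Primrec.fst.comp Primrec.snd) (Primrec.snd.comp Primrec.snd)
  · have h1 : PrimrecRel (fun (j : ℕ) (c : (ℕ × List ℕ) × (List ℕ × ℕ)) =>
        g (c.2.1, c.1.1 + j) c.2.2 = c.1.2[j]?) := by
      refine Primrec.eq.comp ?_ ?_
      · refine hg.comp (Primrec.pair ?_ (Primrec.nat_add.comp ?_ Primrec.fst)) ?_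
        · exact Primrec.fst.comp (Primrec.snd.comp Primrec.snd)
        · exact Primrec.fst.comp (Primrec.fst.comp Primrec.snd)
        · exact Primrec.snd.comp (Primrec.snd.comp Primrec.snd)
      · exact Primrec.list_getElem?.comp (Primrec.snd.comp (Primrec.fst.comp Primrec.snd))
          Primrec.fst
    exact h1.exists_mem_list.comp (Primrec.list_range.comp (Primrec.list_length.comp
      (Primrec.snd.comp Primrec.fst))) Primrec.id

/-- witnesses: values `vs`, list of strings with times, bounds -/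
abbrev Wit : Type := List ℕ × List (List ℕ × ℕ) × ℕ × ℕ

/-- the test performed in the search; `a = ((σ, R), M)` -/
def WP (qB : List ℕ → ℕ → Prop) (g : List ℕ × ℕ → ℕ → Option ℕ) (a : (List ℕ × ℕ) × ℕ)
    (w : Wit) : Prop :=
  a.1.1.length < a.1.2 + 5 ∨
    ((∀ p ∈ w.2.1, (p.1.length ≤ w.2.2.2 ∧ ∀ x ∈ p.1, x ≤ w.2.2.1) ∧
      Wt qB g a.2 w.1 (a.1.1 ++ p.1) p.2) ∧
    Chk a.1.2 a.1.1.length w.2.2.1 w.2.2.2 w.2.1)

theorem primrec_WP {qB : List ℕ → ℕ → Prop} {g : List ℕ × ℕ → ℕ → Option ℕ}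
    (hq : PrimrecRel qB) (hg : Primrec₂ g) :
    PrimrecPred (fun c : ((List ℕ × ℕ) × ℕ) × Wit => WP qB g c.1 c.2) := by
  have cσ : Primrec (fun c : ((List ℕ × ℕ) × ℕ) × Wit => c.1.1.1) :=
    Primrec.fst.comp (Primrec.fst.comp Primrec.fst)
  have cR : Primrec (fun c : ((List ℕ × ℕ) × ℕ) × Wit => c.1.1.2) :=
    Primrec.snd.comp (Primrec.fst.comp Primrec.fst)
  have cM : Primrec (fun c : ((List ℕ × ℕ) × ℕ) × Wit => c.1.2) :=
    Primrec.snd.comp Primrec.fst
  have cv : Primrec (fun c : ((List ℕ × ℕ) × ℕ) × Wit => c.2.1) :=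
    Primrec.fst.comp Primrec.snd
  have cL : Primrec (fun c : ((List ℕ × ℕ) × ℕ) × Wit => c.2.2.1) :=
    Primrec.fst.comp (Primrec.snd.comp Primrec.snd)
  have cb : Primrec (fun c : ((List ℕ × ℕ) × ℕ) × Wit => c.2.2.2.1) :=
    Primrec.fst.comp (Primrec.snd.comp (Primrec.snd.comp Primrec.snd))
  have cl : Primrec (fun c : ((List ℕ × ℕ) × ℕ) × Wit => c.2.2.2.2) :=
    Primrec.snd.comp (Primrec.snd.comp (Primrec.snd.comp Primrec.snd))
  refine PrimrecPred.or ?_ (PrimrecPred.and ?_ ?_)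
  · refine Primrec.nat_lt.comp (Primrec.list_length.comp cσ) ?_
    exact Primrec.nat_add.comp cR (Primrec.const 5)
  · have h1 : PrimrecRel (fun (p : List ℕ × ℕ) (c : ((List ℕ × ℕ) × ℕ) × Wit) =>
        (p.1.length ≤ c.2.2.2.2 ∧ ∀ x ∈ p.1, x ≤ c.2.2.2.1) ∧
          Wt qB g c.1.2 c.2.1 (c.1.1.1 ++ p.1) p.2) := by
      refine PrimrecPred.and (PrimrecPred.and ?_ ?_) ?_
      · exact Primrec.nat_le.comp (Primrec.list_length.comp (Primrec.fst.comp Primrec.fst))
          (cl.comp Primrec.snd)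
      · exact Primrec.nat_le.forall_mem_list.comp (Primrec.fst.comp Primrec.fst)
          (cb.comp Primrec.snd)
      · refine (primrec_Wt hq hg).comp (Primrec.pair (Primrec.pair ?_ ?_) (Primrec.pair ?_ ?_))
        · exact cM.comp Primrec.snd
        · exact cv.comp Primrec.snd
        · exact Primrec.list_append.comp (cσ.comp Primrec.snd) (Primrec.fst.comp Primrec.fst)
        · exact Primrec.snd.comp Primrec.fst
    exact h1.forall_mem_list.comp cL Primrec.id
  · exact primrec_Chk.comp (Primrec.pair (Primrec.pair cR (Primrec.list_length.comp cσ))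
      (Primrec.pair (Primrec.pair cb cl) cL))


/-- the set attached to a block of values -/
def WS (B : Set (List ℕ)) (Ψ : List ℕ → ℕ →. ℕ) (M : ℕ) (vs : List ℕ) : Set (List ℕ) :=
  B ∪ {τ | ∃ j v, vs[j]? = some v ∧ v ∈ Ψ τ (M + j)}

theorem exists_guess {B : Set (List ℕ)} {Ψ : List ℕ → ℕ →. ℕ} {σ₀ : List ℕ}
    (hSD : SD (fun τ => τ ∈ B)) (hΨ : Partrec₂ Ψ)
    (hB : ∀ ρ m R, R < H (σ₀ ++ ρ).length → ¬ Small (B ∪ Dm Ψ m) (σ₀ ++ ρ) R) :
    ∃ x : ℕ → ℕ, Computable x ∧ ∀ ρ R M₀, R + 5 ≤ (σ₀ ++ ρ).length →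
      ¬ Small (B ∪ {τ | ∃ m, M₀ ≤ m ∧ x m ∈ Ψ τ m}) (σ₀ ++ ρ) R := by
  classical
  obtain ⟨qB, hqB, eB⟩ := hSD
  obtain ⟨g, hg, eg⟩ := approx hΨ
  have hWt : ∀ M vs τ, τ ∈ WS B Ψ M vs ↔ ∃ t, Wt qB g M vs τ t := by
    intro M vs τ
    constructor
    · rintro (h | ⟨j, v, hj, hv⟩)
      · obtain ⟨t, ht⟩ := (eB τ).1 h
        exact ⟨t, Or.inl ht⟩
      · obtain ⟨t, ht⟩ := (eg (τ, M + j) v).1 hv
        refine ⟨t, Or.inr ⟨j, List.mem_range.2 (List.getElem?_eq_some_iff.1 hj).1, ?_⟩⟩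
        rw [ht, hj]
    · rintro ⟨t, h | ⟨j, hj, h⟩⟩
      · exact Or.inl ((eB τ).2 ⟨t, h⟩)
      · rw [List.mem_range] at hj
        have h2 : vs[j]? = some vs[j] := List.getElem?_eq_getElem hj
        refine Or.inr ⟨j, vs[j], h2, (eg (τ, M + j) _).2 ⟨t, ?_⟩⟩
        rw [h, h2]
  -- soundness of the test
  have sound : ∀ (σ : List ℕ) (R M : ℕ) (w : Wit), R + 5 ≤ σ.length → WP qB g ((σ, R), M) w →
      ¬ Small (WS B Ψ M w.1) σ R := by
    rintro σ R M w hR (h | ⟨h1, h2⟩)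
    · simp only at h; omega
    · rintro ⟨f, hf⟩
      obtain ⟨p, hp, hk⟩ := chk_sound h2 (fun p hp => (h1 p hp).1) f
      exact hk (hf _ ((hWt _ _ _).2 ⟨_, (h1 p hp).2⟩))
  -- completeness of the test
  have complete : ∀ (σ : List ℕ) (R M : ℕ) (vs : List ℕ), ¬ Small (WS B Ψ M vs) σ R →
      ∃ w : Wit, WP qB g ((σ, R), M) w := by
    intro σ R M vs h
    obtain ⟨L, hL, hLk⟩ := exists_finite_of_not_small h
    have h1 : ∀ ρ ∈ L, ∃ t, Wt qB g M vs (σ ++ ρ) t := fun ρ hρ => (hWt _ _ _).1 (hL ρ hρ)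
    choose! t ht using h1
    obtain ⟨b, l, hc, hbl⟩ := chk_complete (R := R) (s := σ.length)
      (L := L.map fun ρ => (ρ, t ρ)) (by
        intro f
        obtain ⟨ρ, hρ, hk⟩ := hLk f
        exact ⟨(ρ, t ρ), List.mem_map.2 ⟨ρ, hρ, rfl⟩, hk⟩)
    refine ⟨(vs, L.map (fun ρ => (ρ, t ρ)), b, l), Or.inr ⟨?_, hc⟩⟩
    intro p hp
    refine ⟨hbl p hp, ?_⟩
    obtain ⟨ρ, hρ, rfl⟩ := List.mem_map.1 hp
    exact ht ρ hρ
  -- the search
  have hex : ∀ a : (List ℕ × ℕ) × ℕ, ∃ k : ℕ,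
      WP qB g ((σ₀ ++ a.1.1, a.1.2), a.2) (Denumerable.ofNat Wit k) := by
    intro a
    by_cases h : a.1.2 + 5 ≤ (σ₀ ++ a.1.1).length
    · obtain ⟨vs, hvs⟩ := core hB a.1.1 a.1.2 a.2 h
      obtain ⟨w, hw⟩ := complete _ _ _ vs hvs
      exact ⟨encode w, by rw [Denumerable.ofNat_encode]; exact hw⟩
    · exact ⟨0, Or.inl (by simp only; omega)⟩
  have hP : PrimrecPred (fun c : ((List ℕ × ℕ) × ℕ) × ℕ =>
      WP qB g ((σ₀ ++ c.1.1.1, c.1.1.2), c.1.2) (Denumerable.ofNat Wit c.2)) := by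
    refine (primrec_WP hqB hg).comp (Primrec.pair (Primrec.pair (Primrec.pair ?_ ?_) ?_) ?_)
    · exact Primrec.list_append.comp (Primrec.const σ₀)
        (Primrec.fst.comp (Primrec.fst.comp Primrec.fst))
    · exact Primrec.snd.comp (Primrec.fst.comp Primrec.fst)
    · exact Primrec.snd.comp Primrec.fst
    · exact (Primrec.ofNat Wit).comp Primrec.snd
  have hfind : Computable (fun a : (List ℕ × ℕ) × ℕ => Nat.find (hex a)) :=
    Computable.find (P := fun (a : (List ℕ × ℕ) × ℕ) (k : ℕ) =>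
      WP qB g ((σ₀ ++ a.1.1, a.1.2), a.2) (Denumerable.ofNat Wit k))
      hP.computablePred hex
  obtain ⟨F, hF⟩ : ∃ F : (List ℕ × ℕ) × ℕ → List ℕ,
      F = fun a => (Denumerable.ofNat Wit (Nat.find (hex a))).1 := ⟨_, rfl⟩
  have hFc : Computable F := by
    rw [hF]
    exact Computable.fst.comp ((Computable.ofNat Wit).comp hfind)
  have hFs : ∀ (ρ : List ℕ) (R M : ℕ), R + 5 ≤ (σ₀ ++ ρ).length →
      ¬ Small (WS B Ψ M (F ((ρ, R), M))) (σ₀ ++ ρ) R := by
    intro ρ R M hR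
    have := Nat.find_spec (hex ((ρ, R), M))
    rw [hF]
    exact sound _ _ _ _ hR this
  -- the stages
  obtain ⟨X, hX⟩ : ∃ X : ℕ → List ℕ, X = fun n => Nat.rec (motive := fun _ => List ℕ) []
      (fun i IH => IH ++ F (Denumerable.ofNat (List ℕ × ℕ) i.unpair.1, IH.length) ++ [0]) n :=
    ⟨_, rfl⟩
  have hXs : ∀ i, X (i + 1) = X i ++
      F (Denumerable.ofNat (List ℕ × ℕ) i.unpair.1, (X i).length) ++ [0] := by
    intro i; rw [hX]
  have hXc : Computable X := by
    rw [hX]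
    refine Computable.nat_rec (f := fun n : ℕ => n) (g := fun _ => ([] : List ℕ))
      (h := fun (_ : ℕ) (q : ℕ × List ℕ) =>
        q.2 ++ F (Denumerable.ofNat (List ℕ × ℕ) q.1.unpair.1, q.2.length) ++ [0])
      Computable.id (Computable.const []) ?_
    refine Computable.list_concat.comp (Computable.list_append.comp ?_ ?_) (Computable.const 0)
    · exact Computable.snd.comp Computable.snd
    · refine hFc.comp (Computable.pair ?_ ?_)
      · refine (Computable.ofNat (List ℕ × ℕ)).comp (Computable.fst.comp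
          (Computable.unpair.comp (Computable.fst.comp Computable.snd)))
      · exact Computable.list_length.comp (Computable.snd.comp Computable.snd)
  have hXlen : ∀ i, i ≤ (X i).length := by
    intro i
    induction i with
    | zero => exact Nat.zero_le _
    | succ i ih =>
      rw [hXs, List.length_append, List.length_append, List.length_singleton]
      omega
  have hXpre : ∀ i k, X i <+: X (i + k) := by
    intro i k
    induction k with
    | zero => exact List.prefix_refl _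
    | succ k ih =>
      rw [← add_assoc, hXs, List.append_assoc]
      exact ih.trans (List.prefix_append _ _)
  have hXget : ∀ {i k m : ℕ} {v : ℕ}, i ≤ k → (X i)[m]? = some v → (X k)[m]? = some v := by
    intro i k m v hik hv
    obtain ⟨d, rfl⟩ := Nat.exists_eq_add_of_le hik
    obtain ⟨r, hr⟩ := hXpre i d
    rw [← hr, List.getElem?_append_left (List.getElem?_eq_some_iff.1 hv).1]
    exact hv
  refine ⟨fun m => (X (m + 1)).getD m 0, ?_, ?_⟩
  · refine ((Primrec.list_getD 0).to_comp).comp (hXc.comp Computable.succ) Computable.id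
  · intro ρ R M₀ hR hsmall
    obtain ⟨i, hi1, hi2⟩ : ∃ i : ℕ, M₀ ≤ i ∧
        Denumerable.ofNat (List ℕ × ℕ) i.unpair.1 = (ρ, R) := by
      refine ⟨Nat.pair (encode (ρ, R)) M₀, Nat.right_le_pair _ _, ?_⟩
      rw [Nat.unpair_pair, Denumerable.ofNat_encode]
    apply hFs ρ R (X i).length hR
    refine hsmall.mono ?_
    rintro τ (h | ⟨j, v, hj, hv⟩)
    · exact Or.inl h
    · refine Or.inr ⟨(X i).length + j, ?_, ?_⟩
      · have := hXlen i; omega
      · have h1 : (X (i + 1))[(X i).length + j]? = some v := by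
          rw [hXs, hi2, List.append_assoc, List.getElem?_append_right (Nat.le_add_right _ _),
            Nat.add_sub_cancel_left,
            List.getElem?_append_left (List.getElem?_eq_some_iff.1 hj).1]
          exact hj
        have h2 : (X ((X i).length + j + 1)).getD ((X i).length + j) 0 = v := by
          have h3 : ∃ v', (X ((X i).length + j + 1))[(X i).length + j]? = some v' := by
            have := hXlen ((X i).length + j + 1)
            exact ⟨_, List.getElem?_eq_getElem (by omega)⟩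
          obtain ⟨v', hv'⟩ := h3
          have h4 : v' = v := by
            rcases le_total (i + 1) ((X i).length + j + 1) with h | h
            · have := hXget h h1
              rw [hv', Option.some.injEq] at this
              exact this
            · have := hXget h hv'
              rw [h1, Option.some.injEq] at this
              exact this.symm
          rw [List.getD_eq_getElem?_getD, hv', h4]
          rfl
        beta_reduce
        rw [h2]
        exact hv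

/-! ### The forcing notion -/

/-- Conditions: a stem and a semidecidable set of bad strings, which can be killed above the stem
by `R` guesses at each level. -/
structure Cond where
  /-- the stem -/
  σ : List ℕ
  /-- the bad strings -/
  B : Set (List ℕ)
  /-- the number of guesses -/
  R : ℕ
  sd : SD (fun τ => τ ∈ B)
  small : Small B σ R
  hR : R + 5 ≤ σ.length

instance : Preorder Cond where
  le c d := c.σ <+: d.σ ∧ c.B ⊆ d.B
  le_refl c := ⟨List.prefix_refl _, Set.Subset.refl _⟩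
  le_trans c d e h h' := ⟨h.1.trans h'.1, h.2.trans h'.2⟩

theorem Cond.le_iff {c d : Cond} : c ≤ d ↔ c.σ <+: d.σ ∧ c.B ⊆ d.B := Iff.rfl

theorem exists_cond_of_small {σ : List ℕ} {B : Set (List ℕ)} {R : ℕ} (hsd : SD (fun τ => τ ∈ B))
    (hs : Small B σ R) (hR : R < H σ.length) (n : ℕ) :
    ∃ d : Cond, σ <+: d.σ ∧ B = d.B ∧ n ≤ d.σ.length ∧ R = d.R := by
  obtain ⟨f, hf⟩ := hs
  obtain ⟨ρ, hρ, hk⟩ := exists_unkilled f hR (n + R + 5)
  exact ⟨⟨σ ++ ρ, B, R, hsd, small_extend hf hk, by rw [List.length_append, hρ]; omega⟩,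
    List.prefix_append _ _, rfl, by rw [List.length_append, hρ]; omega, rfl⟩

theorem Cond.extend (c : Cond) (n : ℕ) : ∃ d : Cond, c ≤ d ∧ n ≤ d.σ.length ∧ c.R = d.R := by
  obtain ⟨d, h1, h2, h3, h4⟩ := exists_cond_of_small c.sd c.small (lt_H_of_le c.hR) n
  exact ⟨d, ⟨h1, h2.subset⟩, h3, h4⟩

theorem dense_length (n : ℕ) : ∀ c : Cond, ∃ d : Cond, n ≤ d.σ.length ∧ c ≤ d := by
  intro c
  obtain ⟨d, h1, h2, -⟩ := c.extend n
  exact ⟨d, h2, h1⟩

theorem small_Ex (x : ℕ → ℕ) (σ : List ℕ) : Small (Ex x σ.length) σ 1 := by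
  refine ⟨fun k _ => x k, ?_⟩
  rintro ρ ⟨k, hk, hs, h⟩
  rw [List.length_append] at hk
  refine ⟨k - σ.length, 0, ρ.getD (k - σ.length) 0, one_pos, ?_, ?_⟩
  · rw [List.getD_eq_getElem?_getD, List.getElem?_eq_getElem (by omega)]
    rfl
  · have e : σ.length + (k - σ.length) = k := by omega
    rw [e]
    rw [List.getD_append_right _ _ _ _ hs] at h
    exact h

theorem dense_Ex {x : ℕ → ℕ} (hx : Computable x) :
    ∀ c : Cond, ∃ d : Cond, (∃ s, Ex x s ⊆ d.B) ∧ c ≤ d := by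
  intro c
  obtain ⟨c', h1, h2, h3⟩ := c.extend (c.R + 6)
  obtain ⟨d, h4, h5, -, -⟩ := exists_cond_of_small (σ := c'.σ) (B := c'.B ∪ Ex x c'.σ.length)
    (R := c'.R + 1) (SD.or c'.sd (SD_Ex hx _)) (c'.small.union (small_Ex x _))
    (lt_H_of_le (by omega)) 0
  refine ⟨d, ⟨c'.σ.length, ?_⟩, h1.trans ⟨h4, ?_⟩⟩
  · rw [← h5]; exact Set.subset_union_right
  · rw [← h5]; exact Set.subset_union_left

/-- `c` decides `Ψ`: either `Ψ` is undefined or too large at some place, or there is a computable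
function which agrees with `Ψ` infinitely often. -/
def Decides (Ψ : List ℕ → ℕ →. ℕ) (c : Cond) : Prop :=
  (∃ m, Dm Ψ m ⊆ c.B) ∨ ∃ x : ℕ → ℕ, Computable x ∧ ∀ M, ∀ d, c ≤ d →
    ∃ e, d ≤ e ∧ ∃ m, M ≤ m ∧ x m ∈ Ψ e.σ m

theorem dense_Decides {Ψ : List ℕ → ℕ →. ℕ} (hΨ : Partrec₂ Ψ) :
    ∀ c : Cond, ∃ d : Cond, Decides Ψ d ∧ c ≤ d := by
  intro c
  by_cases hA : ∃ ρ m R, R < H (c.σ ++ ρ).length ∧ Small (c.B ∪ Dm Ψ m) (c.σ ++ ρ) R
  · obtain ⟨ρ, m, R, hR, hs⟩ := hA
    obtain ⟨d, h1, h2, -, -⟩ := exists_cond_of_small (SD.or c.sd (SD_Dm hΨ m)) hs hR 0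
    refine ⟨d, Or.inl ⟨m, ?_⟩, (List.prefix_append _ _).trans h1, ?_⟩
    · rw [← h2]; exact Set.subset_union_right
    · rw [← h2]; exact Set.subset_union_left
  · push Not at hA
    obtain ⟨x, hx, hxs⟩ := exists_guess c.sd hΨ hA
    refine ⟨c, Or.inr ⟨x, hx, ?_⟩, le_refl c⟩
    intro M d hcd
    obtain ⟨ρ, hρ⟩ := hcd.1
    have h1 := hxs ρ d.R M (by rw [hρ]; exact d.hR)
    rw [hρ] at h1
    obtain ⟨f, hf⟩ := d.small
    have h2 : ∃ ρ', d.σ ++ ρ' ∈ (c.B ∪ {τ | ∃ m, M ≤ m ∧ x m ∈ Ψ τ m}) ∧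
        ¬ Kill f d.R d.σ.length ρ' := by
      by_contra hcon
      push Not at hcon
      exact h1 ⟨f, hcon⟩
    obtain ⟨ρ', h3, h4⟩ := h2
    rcases h3 with h3 | ⟨m, hm, h3⟩
    · exact absurd (hf ρ' (hcd.2 h3)) h4
    · refine ⟨⟨d.σ ++ ρ', d.B, d.R, d.sd, small_extend hf h4, ?_⟩, ⟨List.prefix_append _ _,
        Set.Subset.refl _⟩, m, hm, h3⟩
      have := d.hR
      rw [List.length_append]
      omega

theorem dense_hit (Ψ : List ℕ → ℕ →. ℕ) (x : ℕ → ℕ) (M : ℕ) :
    ∀ c : Cond, ∃ d : Cond, ((∃ m, M ≤ m ∧ x m ∈ Ψ d.σ m) ∨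
      ∀ e, d ≤ e → ¬ ∃ m, M ≤ m ∧ x m ∈ Ψ e.σ m) ∧ c ≤ d := by
  intro c
  by_cases h : ∃ d, c ≤ d ∧ ∃ m, M ≤ m ∧ x m ∈ Ψ d.σ m
  · obtain ⟨d, h1, h2⟩ := h
    exact ⟨d, Or.inl h2, h1⟩
  · push Not at h
    refine ⟨c, Or.inr ?_, le_refl c⟩
    rintro e hce ⟨m, hm, hx⟩
    exact h e hce m hm hx


/-! ### The generic oracle -/

theorem SD_empty : SD (fun τ : List ℕ => τ ∈ (∅ : Set (List ℕ))) :=
  ⟨fun _ _ => False, ⟨fun _ => isFalse id, (Primrec.const false).of_eq fun _ => rfl⟩, fun a => by simp⟩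

/-- the trivial condition -/
def cond0 : Cond where
  σ := [0, 0, 0, 0, 0]
  B := ∅
  R := 0
  sd := SD_empty
  small := ⟨fun _ _ => 0, fun _ h => absurd h (Set.notMem_empty _)⟩
  hR := le_refl 5

/-- A generic sequence of conditions. -/
theorem exists_generic : ∃ c : ℕ → Cond, Monotone c ∧
    (∀ n, ∃ i, n ≤ (c i).σ.length) ∧
    (∀ x : ℕ → ℕ, Computable x → ∃ i s, Ex x s ⊆ (c i).B) ∧
    (∀ Ψ : List ℕ → ℕ →. ℕ, Partrec₂ Ψ → ∃ i, Decides Ψ (c i)) ∧
    (∀ (Ψ : List ℕ → ℕ →. ℕ) (x : ℕ → ℕ) (M : ℕ), Partrec₂ Ψ → Computable x →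
      ∃ i, (∃ m, M ≤ m ∧ x m ∈ Ψ (c i).σ m) ∨
        ∀ e, c i ≤ e → ¬ ∃ m, M ≤ m ∧ x m ∈ Ψ e.σ m) := by
  classical
  let CF := {x : ℕ → ℕ // Computable x}
  let PF := {Ψ : List ℕ → ℕ →. ℕ // Partrec₂ Ψ}
  have hPF : Countable PF := by
    let F : PF → {f : ℕ →. ℕ // Partrec f} := fun Ψ =>
      ⟨fun k => Ψ.1 (Denumerable.ofNat (List ℕ) k.unpair.1) k.unpair.2,
        Ψ.2.comp ((Computable.ofNat (List ℕ)).comp (Computable.fst.comp Computable.unpair))
          (Computable.snd.comp Computable.unpair)⟩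
    have hF : Function.Injective F := by
      intro Ψ Ψ' h
      apply Subtype.ext
      funext τ n
      have h1 := congrFun (congrArg Subtype.val h) (Nat.pair (encode τ) n)
      simpa [F] using h1
    exact hF.countable
  let I := ℕ ⊕ CF ⊕ PF ⊕ (PF × CF × ℕ)
  have hI : Countable I := inferInstance
  have : Encodable I := Encodable.ofCountable I
  let D : I → Order.Cofinal Cond := fun i =>
    match i with
    | Sum.inl n => ⟨{d | n ≤ d.σ.length}, fun c => dense_length n c⟩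
    | Sum.inr (Sum.inl x) => ⟨{d | ∃ s, Ex x.1 s ⊆ d.B}, fun c => dense_Ex x.2 c⟩
    | Sum.inr (Sum.inr (Sum.inl Ψ)) => ⟨{d | Decides Ψ.1 d}, fun c => dense_Decides Ψ.2 c⟩
    | Sum.inr (Sum.inr (Sum.inr p)) => ⟨{d | (∃ m, p.2.2 ≤ m ∧ p.2.1.1 m ∈ p.1.1 d.σ m) ∨
        ∀ e, d ≤ e → ¬ ∃ m, p.2.2 ≤ m ∧ p.2.1.1 m ∈ p.1.1 e.σ m},
        fun c => dense_hit p.1.1 p.2.1.1 p.2.2 c⟩
  refine ⟨Order.sequenceOfCofinals cond0 D, Order.sequenceOfCofinals.monotone _ _, ?_, ?_, ?_, ?_⟩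
  · intro n
    exact ⟨_, Order.sequenceOfCofinals.encode_mem cond0 D (Sum.inl n)⟩
  · intro x hx
    exact ⟨_, Order.sequenceOfCofinals.encode_mem cond0 D (Sum.inr (Sum.inl ⟨x, hx⟩))⟩
  · intro Ψ hΨ
    exact ⟨_, Order.sequenceOfCofinals.encode_mem cond0 D (Sum.inr (Sum.inr (Sum.inl ⟨Ψ, hΨ⟩)))⟩
  · intro Ψ x M hΨ hx
    exact ⟨_, Order.sequenceOfCofinals.encode_mem cond0 D
      (Sum.inr (Sum.inr (Sum.inr (⟨Ψ, hΨ⟩, ⟨x, hx⟩, M))))⟩

theorem exists_limit {c : ℕ → Cond} (hc : Monotone c) (hl : ∀ n, ∃ i, n ≤ (c i).σ.length) :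
    ∃ y : ℕ → ℕ, ∀ i, (c i).σ = pre y (c i).σ.length := by
  classical
  choose j hj using hl
  refine ⟨fun n => (c (j (n + 1))).σ.getD n 0, ?_⟩
  intro i
  apply List.ext_getElem?
  intro k
  rw [pre_getElem?]
  split_ifs with hk
  · have h1 : (c (j (k + 1))).σ[k]? = some ((c (j (k + 1))).σ.getD k 0) := by
      rw [List.getD_eq_getElem?_getD, List.getElem?_eq_getElem (by have := hj (k + 1); omega)]
      rfl
    rcases le_total i (j (k + 1)) with h | h
    · obtain ⟨r, hr⟩ := (hc h).1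
      rw [← h1, ← hr, List.getElem?_append_left hk]
    · obtain ⟨r, hr⟩ := (hc h).1
      rw [← h1, ← hr, List.getElem?_append_left (by have := hj (k + 1); omega)]
  · exact List.getElem?_eq_none (by omega)

theorem Cond.not_mem (c : Cond) : c.σ ∉ c.B := by
  intro h
  obtain ⟨f, hf⟩ := c.small
  exact not_kill_nil _ _ _ (hf [] (by rwa [List.append_nil]))

theorem computableIn_graph (y : ℕ → ℕ) :
    ComputableIn {chi (graphSet y)} (fun n => y n % H n) := by
  classical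
  unfold ComputableIn RecursiveIn
  have h1 : Nat.RecursiveIn {chi (graphSet y)} (chi (graphSet y)) :=
    Nat.RecursiveIn.oracle _ rfl
  have h2 : Nat.RecursiveIn {chi (graphSet y)} (fun n => Part.some (1 - n) : ℕ →. ℕ) := by
    apply Nat.Partrec.recursiveIn
    rw [← Partrec.nat_iff]
    exact (Primrec.nat_sub.comp (Primrec.const 1) Primrec.id).to_comp.partrec
  have h3 := Nat.RecursiveIn.rfind (Nat.RecursiveIn.comp h2 h1)
  refine h3.of_eq fun n => ?_
  simp only [decode_nat, Part.coe_some, Part.bind_some, encode_nat, Part.map_some]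
  rw [Part.eq_some_iff, Nat.mem_rfind]
  have e : ∀ m, (chi (graphSet y) (Nat.pair n m) >>= fun n => Part.some (1 - n)) =
      Part.some (1 - if y n % H n = m then 1 else 0) := by
    intro m
    unfold chi graphSet
    by_cases h : y n % H n = m <;> simp [h]
  constructor
  · rw [e]
    simp
  · intro m hm
    rw [e]
    simp [hm.ne']

theorem two_pow_le_factorial {n : ℕ} (hn : 4 ≤ n) : 2 ^ n ≤ n.factorial := by
  induction n, hn using Nat.le_induction with
  | base => decide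
  | succ n hn ih =>
    rw [pow_succ, Nat.factorial_succ, mul_comm]
    exact Nat.mul_le_mul (by omega) ih

theorem subset_part : EvDiff (fun n => 2 ^ 2 ^ n) ⊆ EvDiff (fun n => 2 ^ n.factorial) := by
  rintro A ⟨y, hy, hlt, hd⟩
  refine ⟨fun n => if n < 4 then 0 else y n, ?_, ?_, ?_⟩
  · have h1 : Nat.RecursiveIn {chi A} (fun n => Part.some (y n)) := by
      refine Nat.RecursiveIn.of_eq hy fun n => ?_
      simp
    have h2 : Nat.RecursiveIn {chi A} (fun n => Part.some n : ℕ →. ℕ) :=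
      Nat.Partrec.recursiveIn Nat.Partrec.some
    have h3 : Nat.RecursiveIn {chi A}
        (fun n => Part.some (if n.unpair.1 < 4 then 0 else n.unpair.2) : ℕ →. ℕ) := by
      apply Nat.Partrec.recursiveIn
      rw [← Partrec.nat_iff]
      refine (Primrec.ite ?_ (Primrec.const 0) ?_).to_comp.partrec
      · exact Primrec.nat_lt.comp (Primrec.fst.comp Primrec.unpair) (Primrec.const 4)
      · exact Primrec.snd.comp Primrec.unpair
    have h4 := Nat.RecursiveIn.comp h3 (Nat.RecursiveIn.pair h2 h1)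
    refine Nat.RecursiveIn.of_eq h4 fun n => ?_
    simp [Seq.seq]
  · intro n
    by_cases h : n < 4
    · simp only [if_pos h]; positivity
    · simp only [if_neg h]
      exact (hlt n).trans_le (Nat.pow_le_pow_right (by norm_num)
        (two_pow_le_factorial (by omega)))
  · intro x hx
    filter_upwards [hd x hx, eventually_ge_atTop 4] with n h1 h2
    rw [if_neg (by omega)]
    exact h1

theorem not_subset_part : ¬ EvDiff (fun n => 2 ^ n.factorial) ⊆ EvDiff (fun n => 2 ^ 2 ^ n) := by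
  intro hsub
  obtain ⟨c, hmono, hlen, hEx, hDec, hHit⟩ := exists_generic
  obtain ⟨y, hy⟩ := exists_limit hmono hlen
  have hA : graphSet y ∈ EvDiff (fun n => 2 ^ n.factorial) := by
    refine ⟨fun n => y n % H n, computableIn_graph y, fun n => Nat.mod_lt _ (H_pos n), ?_⟩
    intro x hx
    obtain ⟨i, s, hs⟩ := hEx x hx
    filter_upwards [eventually_ge_atTop s] with n hn hcon
    obtain ⟨k, hk⟩ := hlen (n + 1)
    obtain ⟨l, hil, hkl⟩ : ∃ l, i ≤ l ∧ k ≤ l := ⟨max i k, le_max_left _ _, le_max_right _ _⟩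
    have h1 : n < (c l).σ.length := by
      have := (hmono hkl).1.length_le
      omega
    have h2 : (c l).σ ∈ Ex x s := by
      refine ⟨n, h1, hn, ?_⟩
      have h3 : (c l).σ.getD n 0 = y n := by
        rw [List.getD_eq_getElem?_getD, hy l, pre_getElem?, if_pos h1]
        rfl
      rw [h3, hcon]
    exact (c l).not_mem ((hmono hil).2 (hs h2))
  obtain ⟨f, hf, hlt, hd⟩ := hsub hA
  have hf' : Nat.RecursiveIn {chi (graphSet y)} (fun n => Part.some (f n)) := by
    refine Nat.RecursiveIn.of_eq hf fun n => ?_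
    simp
  obtain ⟨Ψ, hΨ, hΨm, hΨf⟩ := exists_functional y hf'
  -- every value of `f` is decided by some condition
  have hval : ∀ m i, ∃ l, i ≤ l ∧ f m ∈ Ψ (c l).σ m := by
    intro m i
    obtain ⟨k, hk⟩ := (hΨf m (f m)).1 (Part.mem_some _)
    obtain ⟨l, hl⟩ := hlen k
    refine ⟨max i l, le_max_left _ _, ?_⟩
    rw [hy (max i l)]
    refine mono_pre hΨm y ?_ hk
    have := (hmono (le_max_right i l)).1.length_le
    omega
  have huniq : ∀ m l v, v ∈ Ψ (c l).σ m → v = f m := by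
    intro m l v hv
    rw [hy l] at hv
    have := (hΨf m v).2 ⟨_, hv⟩
    simpa using this
  obtain ⟨i, hi⟩ := hDec Ψ hΨ
  rcases hi with ⟨m, hm⟩ | ⟨x, hx, hxh⟩
  · obtain ⟨l, hil, hl⟩ := hval m i
    exact (c l).not_mem ((hmono hil).2 (hm ⟨f m, hlt m, hl⟩))
  · obtain ⟨M, hM⟩ := eventually_atTop.1 (hd x hx)
    obtain ⟨k, hk⟩ := hHit Ψ x M hΨ hx
    rcases hk with ⟨m, hm, hxm⟩ | hk
    · exact hM m hm (huniq m k _ hxm)
    · obtain ⟨e, he, m, hm, hxm⟩ := hxh M (c (max i k)) (hmono (le_max_left _ _))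
      exact hk e ((hmono (le_max_right i k)).trans he) ⟨m, hm, hxm⟩

/-- **Main theorem.** `B(≠*, 2 ^ 2 ^ n)` is a proper subclass of `B(≠*, 2 ^ n!)`. -/
theorem result : EvDiff (fun n => 2 ^ 2 ^ n) ⊂ EvDiff (fun n => 2 ^ n.factorial) :=
  ⟨subset_part, not_subset_part⟩

end Pool.Agent.Results.MP_69a5e7_lc.ProperInclusion
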